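import Pool.Agent.MWKP.Stmts

/-!
# LVX: a disagreement gives the level bit
-/

set_option autoImplicit false

namespace Pool.Agent.MWKP.H67

open Pool.Agent.Helper14_MV Pool.Agent.Helper2_MV Pool.Agent.MWK Pool.Agent.MWKP

theorem lvx (hF : FbtStmt) (hB : BbtStmt) (hD : DbtStmt) (hA : AbtStmt) : LvxStmt := by
  intro n θ hK m u v huv
  have hor : ∀ u' v' : List ℕ, ((u' = u ∧ v' = v) ∨ (u' = v ∧ v' = u)) → RR θ u' v' := by
    rintro u' v' (⟨rfl, rfl⟩ | ⟨rfl, rfl⟩)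
    · exact huv
    · exact huv.symm
  refine ⟨?_, ?_⟩
  · intro j hj h1 h2
    match j, hj, h1, h2 with
    | 0, _, h1, h2 =>
      obtain ⟨x, y, cs, hl, a1, a2, a3, a4, a5, a6⟩ := T.sfa m u v h1 h2
      exact hF n θ hK m u v x y cs huv hl a1 a2 a3 a4 a5 a6
    | 1, _, h1, h2 =>
      obtain ⟨u', v', ho, x, y, cs, hl, a1, a2, a3, a4, a5, a6, a7, a8⟩ := T.sba m u v h1 h2
      exact hB n θ hK m u' v' x y cs (hor u' v' ho) hl a1 a2 a3 a4 a5 a6 a7 a8
    | e + 2, hj, h1, h2 =>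
      obtain ⟨u', v', ho, x, d, y, cs, hl, a1, a2, a3, a4, a5, a6, a7, a8, a9, a10, a11, a12, a13,
        a14⟩ := T.sda m (e + 1) u v (by omega) (by omega) h1 h2
      have hR := hor u' v' ho
      have := hD n θ hK m (e + 1) u' v' x d y cs (by omega) hR hl a1 a2 a3 a4 a5 a6 a7 a8 a9 a10
        a11 a12 a13 a14
      show if e + 1 ≤ m then WDn n m (e + 1) θ else WAn n m θ
      rw [if_pos (by omega)]
      exact this
  · intro h1 h2
    obtain ⟨u', v', ho, x, y, cs, hl, a1, a2, a3, a4, a5, a6, a7, a8⟩ := T.saa m u v h1 h2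
    have := hA n θ hK m u' v' x y cs (hor u' v' ho) hl a1 a2 a3 a4 a5 a6 a7 a8
    show if m + 1 ≤ m then WDn n m (m + 1) θ else WAn n m θ
    rw [if_neg (by omega)]
    exact this

end Pool.Agent.MWKP.H67
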