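import Pool.Agent.MWKP.StmtsN

/-!
# NTN: the type `x t x^k` is preserved (period `n`)
-/

set_option autoImplicit false

namespace Pool.Agent.MWKP.H67

open Pool.Agent.Helper14_MV Pool.Agent.Helper2_MV Pool.Agent.MWK Pool.Agent.MWKP

/-- `0^i 1 0^j` -/
abbrev wd (i j : ℕ) : List ℕ := List.replicate i 0 ++ 1 :: List.replicate j 0

theorem wd_ext (p i j q : ℕ) : List.replicate p 0 ++ (wd i j ++ List.replicate q 0) =
    wd (p + i) (j + q) := by
  unfold wd
  rw [List.append_assoc, List.cons_append, ← List.append_assoc, ← List.replicate_add,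
    ← List.replicate_add]

theorem wd_app {β : FIC} {i j i' j' : ℕ} (h : RR β (wd i j) (wd i' j')) (p q : ℕ) :
    RR β (wd (p + i) (j + q)) (wd (p + i') (j' + q)) := by
  have := RR.append (RR.refl (β := β) (List.replicate p 0))
    (RR.append h (RR.refl (β := β) (List.replicate q 0)))
  rwa [wd_ext, wd_ext] at this

theorem gstep {n : ℕ} {β : FIC} (hG : Gn n β) (i j s : ℕ) (hi : 1 ≤ i) (hj : 1 ≤ j) :
    RR β (wd i j) (wd i (j + n * s)) := by
  induction s with
  | zero => exact RR.refl _
  | succ s ih =>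
    have h0 : RR β (wd 1 1) (wd 1 (n + 1)) := hG.gm
    have h1 := wd_app h0 (i - 1) (j + n * s - 1)
    have e1 : i - 1 + 1 = i := by omega
    have e2 : 1 + (j + n * s - 1) = j + n * s := by omega
    have e3 : n + 1 + (j + n * s - 1) = j + n * (s + 1) := by
      have : n * (s + 1) = n * s + n := by ring
      omega
    rw [e1, e2, e3] at h1
    exact β.trans ih h1

/-- the exponent behind may be changed -/
theorem gmod {n : ℕ} {β : FIC} (hG : Gn n β) (i j j' : ℕ) (hi : 1 ≤ i) (hj : 1 ≤ j) (hj' : 1 ≤ j')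
    (h : j ≡ j' [MOD n]) : RR β (wd i j) (wd i j') := by
  rcases Nat.le_total j j' with h1 | h1
  · obtain ⟨s, hs⟩ := (Nat.modEq_iff_dvd' h1).1 h
    have e : j' = j + n * s := by omega
    rw [e]
    exact gstep hG i j s hi hj
  · obtain ⟨s, hs⟩ := (Nat.modEq_iff_dvd' h1).1 h.symm
    have e : j = j' + n * s := by omega
    rw [e]
    exact (gstep hG i j' s hi hj').symm

theorem caseI (pw : PwnStmt) {n : ℕ} {β : FIC} (hG : Gn n β) (a c : ℕ) (ha : 2 ≤ a) (hc : 1 ≤ c)
    (h : RR β (wd 1 1) (wd a c)) : False := by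
  obtain ⟨a', rfl⟩ : ∃ a', a = a' + 1 := ⟨a - 1, by omega⟩
  obtain ⟨c', rfl⟩ : ∃ c', c = c' + 1 := ⟨c - 1, by omega⟩
  have key : ∀ t : ℕ, RR β (wd 1 1) (wd (t * a' + 1) (t * c' + 1)) := by
    intro t
    induction t with
    | zero => rw [Nat.zero_mul, Nat.zero_mul]; exact RR.refl _
    | succ t ih =>
      have h1 := wd_app h (t * a') (t * c')
      have e1 : 1 + t * c' = t * c' + 1 := by omega
      have e2 : t * a' + (a' + 1) = (t + 1) * a' + 1 := by ring
      have e3 : c' + 1 + t * c' = (t + 1) * c' + 1 := by ring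
      rw [e1, e2, e3] at h1
      exact β.trans ih h1
  have hn := hG.pos
  have h1 := key n
  have hp : RR β (List.replicate (n * a' + 1) 0) (List.replicate (n + 1) 0) := by
    refine pw n β hG.per 0 _ _ ?_ (by omega) ?_
    · have : 1 ≤ n * a' := Nat.mul_pos hn (by omega)
      omega
    · have e1 : n * a' + 1 ≡ 0 + 1 [MOD n] :=
        Nat.ModEq.add_right 1 ((Nat.modEq_zero_iff_dvd).2 ⟨a', rfl⟩)
      have e2 : n + 1 ≡ 0 + 1 [MOD n] :=
        Nat.ModEq.add_right 1 ((Nat.modEq_zero_iff_dvd).2 dvd_rfl)
      exact e1.trans e2.symm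
  have h2 : RR β (wd (n * a' + 1) (n * c' + 1)) (wd (n + 1) (n * c' + 1)) :=
    RR.append hp (RR.refl (β := β) (1 :: List.replicate (n * c' + 1) 0))
  have h3 : RR β (wd (n + 1) (n * c' + 1)) (wd (n + 1) (n + 1)) := by
    refine gmod hG (n + 1) _ _ (by omega) (by omega) (by omega) ?_
    have e1 : n * c' + 1 ≡ 0 + 1 [MOD n] :=
      Nat.ModEq.add_right 1 ((Nat.modEq_zero_iff_dvd).2 ⟨c', rfl⟩)
    have e2 : n + 1 ≡ 0 + 1 [MOD n] :=
      Nat.ModEq.add_right 1 ((Nat.modEq_zero_iff_dvd).2 dvd_rfl)
    exact e1.trans e2.symm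
  exact hG.nb (β.trans h1 (β.trans h2 h3))

theorem ntn (pw : PwnStmt) (ctn : CtnStmt) : NtnStmt := by
  intro n β hG x t hxt k w' hk h
  have hn := hG.pos
  have hct : ∀ c, c ∈ x :: t :: List.replicate k x ↔ c ∈ w' := fun c => (ctn n β hG _ _ h c).1
  have hmem : ∀ c ∈ w', c = x ∨ c = t := by
    intro c hc
    have := (hct c).2 hc
    simp only [List.mem_cons, List.mem_replicate] at this
    tauto
  have hct1 : w'.count t = 1 := by
    refine ((ctn n β hG _ _ h t).2).1 ?_
    rw [List.count_cons_of_ne hxt, List.count_cons_self, List.count_replicate]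
    simp [hxt]
  have hcx : w'.count x ≠ 1 := by
    intro h1
    have := ((ctn n β hG _ _ h x).2).2 h1
    rw [List.count_cons_self, List.count_cons_of_ne (Ne.symm hxt), List.count_replicate_self]
      at this
    omega
  have hcx0 : 0 < w'.count x := by
    rw [List.count_pos_iff, ← hct x]
    simp
  have htm : t ∈ w' := by
    rw [← List.count_pos_iff]
    omega
  obtain ⟨A, B, hAB⟩ := List.append_of_mem htm
  have hc2 : A.count t + (B.count t + 1) = 1 := by
    have h1 := hct1
    rw [hAB, List.count_append, List.count_cons_self] at h1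
    exact h1
  have hA : A = List.replicate A.length x := by
    rw [List.eq_replicate_iff]
    refine ⟨rfl, ?_⟩
    intro c hc
    rcases hmem c (by rw [hAB]; simp [hc]) with h1 | h1
    · exact h1
    · exfalso
      have : 0 < A.count t := List.count_pos_iff.2 (h1 ▸ hc)
      omega
  have hB : B = List.replicate B.length x := by
    rw [List.eq_replicate_iff]
    refine ⟨rfl, ?_⟩
    intro c hc
    rcases hmem c (by rw [hAB]; simp [hc]) with h1 | h1
    · exact h1
    · exfalso
      have : 0 < B.count t := List.count_pos_iff.2 (h1 ▸ hc)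
      omega
  generalize A.length = a at hA
  generalize B.length = b at hB
  subst hA hB
  have hab : w'.count x = a + b := by
    rw [hAB, List.count_append, List.count_cons_of_ne (Ne.symm hxt), List.count_replicate_self,
      List.count_replicate_self]
  have hR : RR β (wd 1 k) (wd a b) := by
    have h1 := RR.sub (fun c => if c = x then [0] else [1]) h
    rw [hAB] at h1
    have e1 : ∀ m : ℕ, (List.replicate m x).flatMap (fun c => if c = x then [0] else [1]) =
        List.replicate m 0 := by
      intro m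
      induction m with
      | zero => rfl
      | succ m ih =>
        rw [List.replicate_succ, List.flatMap_cons, ih, List.replicate_succ]
        simp
    have h2 : RR β (0 :: 1 :: List.replicate k 0) (List.replicate a 0 ++ 1 :: List.replicate b 0) := by
      simpa [List.flatMap_append, List.flatMap_cons, e1, hxt, Ne.symm hxt] using h1
    exact h2
  have hm : ∀ j : ℕ, j + ((n - 1) * j + 1) ≡ 1 [MOD n] := by
    intro j
    have e : j + ((n - 1) * j + 1) = n * j + 1 := by
      obtain ⟨n', rfl⟩ : ∃ n', n = n' + 1 := ⟨n - 1, by omega⟩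
      rw [Nat.add_sub_cancel]
      ring
    rw [e]
    have e1 : n * j + 1 ≡ 0 + 1 [MOD n] :=
      Nat.ModEq.add_right 1 ((Nat.modEq_zero_iff_dvd).2 ⟨j, rfl⟩)
    exact e1
  have H : RR β (wd 1 1) (wd a (b + ((n - 1) * k + 1))) := by
    have h1 := wd_app hR 0 ((n - 1) * k + 1)
    rw [Nat.zero_add, Nat.zero_add] at h1
    exact β.trans (gmod hG 1 1 _ (le_refl 1) (le_refl 1) (by omega) (hm k).symm) h1
  rcases Nat.lt_or_ge a 2 with ha | ha
  · rcases Nat.eq_zero_or_pos a with ha0 | ha0
    · exfalso
      subst ha0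
      obtain ⟨c, hc⟩ : ∃ c, c = b + ((n - 1) * k + 1) := ⟨_, rfl⟩
      rw [← hc] at H
      have h1 := RR.sub (fun c => if c = 0 then [0] else [0, 1]) H
      have e1 : ∀ m : ℕ, (List.replicate m 0).flatMap
          (fun c => if c = 0 then [0] else [0, 1]) = List.replicate m 0 := by
        intro m
        induction m with
        | zero => rfl
        | succ m ih =>
          rw [List.replicate_succ, List.flatMap_cons, ih]
          simp [List.replicate_succ]
      have e2 : ∀ i j : ℕ, (wd i j).flatMap (fun c => if c = 0 then [0] else [0, 1]) =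
          wd (i + 1) j := by
        intro i j
        unfold wd
        rw [List.flatMap_append, List.flatMap_cons, e1, e1]
        simp [List.replicate_succ']
      rw [e2, e2] at h1
      have h2 := wd_app h1 0 ((n - 1) * c + 1)
      rw [Nat.zero_add, Nat.zero_add, Nat.zero_add] at h2
      have h3 : RR β (wd 1 1) (wd 1 (c + ((n - 1) * c + 1))) :=
        gmod hG 1 1 _ (le_refl 1) (le_refl 1) (by omega) (hm c).symm
      exact caseI pw hG 2 _ (le_refl 2) (by omega) (β.trans h3 h2.symm)
    · have ha1 : a = 1 := by omega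
      subst ha1
      refine ⟨b, by omega, ?_⟩
      rw [hAB]
      rfl
  · exact (caseI pw hG a _ ha (by omega) H).elim

end Pool.Agent.MWKP.H67
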